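import Pool.Agent.L5helper98.ID.Defs

/-!
# A necessary condition for infinite divisibility (CRI)
-/

set_option autoImplicit false

open MeasureTheory Filter Topology Set Pool.Agent.L5helper98.ID

namespace Pool.Agent.L5helper48.ID

/-- the exponential moments of a sum of independent variables of one law -/
lemma mom {n : ℕ} (ρ : Measure ℝ) [IsProbabilityMeasure ρ] (j : ℝ) :
    ∫ y, Real.exp (j * y) ∂((Measure.pi (fun _ : Fin n => ρ)).map (fun y => ∑ i, y i)) =
      (∫ y, Real.exp (j * y) ∂ρ) ^ n := by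
  have hm : Measurable (fun y : Fin n → ℝ => ∑ i, y i) := by fun_prop
  rw [integral_map hm.aemeasurable (by fun_prop)]
  have h : ∀ y : Fin n → ℝ, Real.exp (j * ∑ i, y i) = ∏ i, Real.exp (j * y i) := by
    intro y
    rw [← Real.exp_sum, Finset.mul_sum]
  simp only [h]
  rw [integral_fintype_prod_eq_pow (fun y => Real.exp (j * y))]
  simp

lemma dom {ρ : Measure ℝ} [IsProbabilityMeasure ρ] (h4 : Integrable (fun y => Real.exp (4 * y)) ρ)
    {j : ℝ} (h0 : 0 ≤ j) (hj : j ≤ 4) : Integrable (fun y => Real.exp (j * y)) ρ := by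
  refine Integrable.mono' ((integrable_const (1 : ℝ)).add h4) (by fun_prop) ?_
  refine Filter.Eventually.of_forall fun y => ?_
  rw [Real.norm_eq_abs, abs_of_pos (Real.exp_pos _)]
  simp only [Pi.add_apply]
  rcases le_total 0 y with hy | hy
  · have : Real.exp (j * y) ≤ Real.exp (4 * y) := Real.exp_le_exp.mpr (by nlinarith)
    linarith
  · have : Real.exp (j * y) ≤ 1 := Real.exp_le_one_iff.mpr (by nlinarith)
    linarith [Real.exp_pos (4 * y)]

lemma pos {ρ : Measure ℝ} [IsProbabilityMeasure ρ] {j : ℝ}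
    (h : Integrable (fun y => Real.exp (j * y)) ρ) : 0 < ∫ y, Real.exp (j * y) ∂ρ :=
  integral_exp_pos h

theorem CRI_b_holds : St_CRI := by
  intro ν hν hdiv h4
  have i1 := dom (ρ := ν) h4 (j := 1) (by norm_num) (by norm_num)
  have i2 := dom (ρ := ν) h4 (j := 2) (by norm_num) (by norm_num)
  have i3 := dom (ρ := ν) h4 (j := 3) (by norm_num) (by norm_num)
  have p1 := pos i1
  have p2 := pos i2
  have p3 := pos i3
  have p4 := pos h4
  set m1 := ∫ y, Real.exp (1 * y) ∂ν with hm1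
  set m2 := ∫ y, Real.exp (2 * y) ∂ν with hm2
  set m3 := ∫ y, Real.exp (3 * y) ∂ν with hm3
  set m4 := ∫ y, Real.exp (4 * y) ∂ν with hm4
  have hm1' : ∫ y, Real.exp y ∂ν = m1 := by rw [hm1]; simp
  -- the inequality for every `n`
  have key : ∀ n : ℕ, 1 ≤ n →
      0 ≤ m4 ^ ((n : ℝ)⁻¹) - 4 * m3 ^ ((n : ℝ)⁻¹) + 6 * m2 ^ ((n : ℝ)⁻¹) -
        4 * m1 ^ ((n : ℝ)⁻¹) + 1 := by
    intro n hn
    obtain ⟨ρ, hρ, hmap⟩ := hdiv n hn
    have hn0 : n ≠ 0 := by omega
    have e : ∀ j : ℝ, ∫ y, Real.exp (j * y) ∂ν = (∫ y, Real.exp (j * y) ∂ρ) ^ n := by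
      intro j; rw [← hmap, mom]
    have j4 : Integrable (fun y => Real.exp (4 * y)) ρ := by
      by_contra hcon
      have h1 := e 4
      rw [integral_undef hcon, zero_pow hn0] at h1
      exact p4.ne' h1
    have j1 := dom (ρ := ρ) j4 (j := 1) (by norm_num) (by norm_num)
    have j2 := dom (ρ := ρ) j4 (j := 2) (by norm_num) (by norm_num)
    have j3 := dom (ρ := ρ) j4 (j := 3) (by norm_num) (by norm_num)
    have root : ∀ j : ℝ, Integrable (fun y => Real.exp (j * y)) ρ →
        (∫ y, Real.exp (j * y) ∂ν) ^ ((n : ℝ)⁻¹) = ∫ y, Real.exp (j * y) ∂ρ := by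
      intro j hj
      rw [e j, Real.pow_rpow_inv_natCast (pos hj).le hn0]
    rw [hm1, hm2, hm3, hm4, root 1 j1, root 2 j2, root 3 j3, root 4 j4]
    have hpt : ∀ y : ℝ, (Real.exp y - 1) ^ 4 = Real.exp (4 * y) - 4 * Real.exp (3 * y) +
        6 * Real.exp (2 * y) - 4 * Real.exp (1 * y) + 1 := by
      intro y
      have a1 : Real.exp (4 * y) = Real.exp y ^ 4 := by
        rw [← Real.exp_nat_mul]; norm_num
      have a2 : Real.exp (3 * y) = Real.exp y ^ 3 := by
        rw [← Real.exp_nat_mul]; norm_num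
      have a3 : Real.exp (2 * y) = Real.exp y ^ 2 := by
        rw [← Real.exp_nat_mul]; norm_num
      rw [a1, a2, a3, one_mul]
      ring
    have h0 : 0 ≤ ∫ y, (Real.exp y - 1) ^ 4 ∂ρ := integral_nonneg fun y => by positivity
    have h1 : ∫ y, (Real.exp y - 1) ^ 4 ∂ρ = (∫ y, Real.exp (4 * y) ∂ρ) -
        4 * (∫ y, Real.exp (3 * y) ∂ρ) + 6 * (∫ y, Real.exp (2 * y) ∂ρ) -
        4 * (∫ y, Real.exp (1 * y) ∂ρ) + 1 := by
      simp only [hpt]
      have k1 : Integrable (fun y => Real.exp (4 * y) - 4 * Real.exp (3 * y)) ρ :=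
        j4.sub (j3.const_mul 4)
      have k2 : Integrable (fun y => Real.exp (4 * y) - 4 * Real.exp (3 * y) +
          6 * Real.exp (2 * y)) ρ := k1.add (j2.const_mul 6)
      have k3 : Integrable (fun y => Real.exp (4 * y) - 4 * Real.exp (3 * y) +
          6 * Real.exp (2 * y) - 4 * Real.exp (1 * y)) ρ := k2.sub (j1.const_mul 4)
      rw [integral_add k3 (integrable_const _), integral_sub k2 (j1.const_mul 4),
        integral_add k1 (j2.const_mul 6), integral_sub j4 (j3.const_mul 4)]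
      simp only [integral_const_mul, integral_const, smul_eq_mul, mul_one]
      simp
    linarith
  -- the limit
  have lim : ∀ m : ℝ, 0 < m →
      Tendsto (fun n : ℕ => (n : ℝ) * (m ^ ((n : ℝ)⁻¹) - 1)) atTop (𝓝 (Real.log m)) := by
    intro m hm
    have h1 : Tendsto (fun n : ℕ => ((n : ℝ)⁻¹)) atTop (𝓝[>] 0) := by
      refine tendsto_nhdsWithin_iff.mpr ⟨tendsto_inv_atTop_nhds_zero_nat, ?_⟩
      filter_upwards [eventually_ge_atTop 1] with n hn
      have : (0 : ℝ) < n := by exact_mod_cast hn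
      exact inv_pos.mpr this
    have h2 := (tendsto_rpow_sub_one_log hm).comp h1
    refine h2.congr fun n => ?_
    simp
  have hlim : Tendsto (fun n : ℕ => (n : ℝ) * (m4 ^ ((n : ℝ)⁻¹) - 1) -
      4 * ((n : ℝ) * (m3 ^ ((n : ℝ)⁻¹) - 1)) + 6 * ((n : ℝ) * (m2 ^ ((n : ℝ)⁻¹) - 1)) -
      4 * ((n : ℝ) * (m1 ^ ((n : ℝ)⁻¹) - 1))) atTop
      (𝓝 (Real.log m4 - 4 * Real.log m3 + 6 * Real.log m2 - 4 * Real.log m1)) :=
    (((lim m4 p4).sub ((lim m3 p3).const_mul 4)).add ((lim m2 p2).const_mul 6)).sub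
      ((lim m1 p1).const_mul 4)
  have hnn : 0 ≤ Real.log m4 - 4 * Real.log m3 + 6 * Real.log m2 - 4 * Real.log m1 := by
    refine ge_of_tendsto hlim ?_
    filter_upwards [eventually_ge_atTop 1] with n hn
    have h1 := key n hn
    have h2 : (0 : ℝ) ≤ n := Nat.cast_nonneg n
    have h3 := mul_nonneg h2 h1
    nlinarith
  have hfin : Real.log (m3 ^ 4 * m1 ^ 4) ≤ Real.log (m4 * m2 ^ 6) := by
    rw [Real.log_mul (by positivity) (by positivity), Real.log_mul (by positivity) (by positivity),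
      Real.log_pow, Real.log_pow, Real.log_pow]
    push_cast
    linarith
  have := (Real.log_le_log_iff (by positivity) (by positivity)).mp hfin
  rw [hm1']
  exact this

end Pool.Agent.L5helper48.ID
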